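import Pool.Agent.helper74.VN.SpecA
import Pool.Agent.helper65.VQ.VPE

/-!
# Project VN (MP_07c750_an), row NPE: the error of the beam (copy of VPE, helper65)
-/

set_option autoImplicit false

open scoped MatrixGroups ContDiff Topology UpperHalfPlane ComplexConjugate ENNReal
open UpperHalfPlane MeasureTheory Filter Set

namespace Pool.Agent.VN

open Pool.Agent.RS Pool.Agent.VQ

noncomputable section

variable {K : ℕ} {C : ℝ}

theorem NPE_Sp_XV (hC : VPB_Cal K C) {N m ρ κ b : ℝ} {v : ℂ} (hN : 1 ≤ N)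
    (hv : ‖v‖ ≤ m) (hmN : 1 ≤ m * N) (hm1 : m ≤ 1) (hρ : |ρ| ≤ b) (hκ : |κ| ≤ b) :
    VPB_Sp K N (4 * C * b) (fun w => XV ρ κ w) v := by
  have hb : 0 ≤ b := (abs_nonneg _).trans hρ
  have hN0 : 0 ≤ N := zero_le_one.trans hN
  have hm : 0 ≤ m := (norm_nonneg v).trans hv
  have hC1 := hC.one
  have hC0 : 0 ≤ C := zero_le_one.trans hC1
  have hid : VPB_Sp K N m (fun w => (ContinuousLinearMap.id ℝ ℂ) w) v :=
    VPB_Sp_lin (ContinuousLinearMap.id ℝ ℂ) ContinuousLinearMap.norm_id_le hv hN0 hmN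
  have h2 := hC.mul N m m _ _ v hN hm hm hid hid
  have g2 := VPB_Sp_cmul h2 (-((ρ : ℂ) / 4)) hN0 (m' := b * (C * m * m)) (by
    have e : ‖-((ρ : ℂ) / 4)‖ = |ρ| / 4 := by
      rw [norm_neg, norm_div, Complex.norm_real, Real.norm_eq_abs]
      norm_num
    rw [e]
    have h5 : 0 ≤ C * m * m := by positivity
    have h6 : |ρ| / 4 ≤ b := by linarith [abs_nonneg ρ]
    exact mul_le_mul_of_nonneg_right h6 h5)
  have g1 := VPB_Sp_cmul hid ((κ : ℂ) * Complex.I) hN0 (m' := b * m) (by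
    have e : ‖(κ : ℂ) * Complex.I‖ = |κ| := by
      rw [norm_mul, Complex.norm_real, Real.norm_eq_abs, Complex.norm_I, mul_one]
    rw [e]
    exact mul_le_mul_of_nonneg_right hκ hm)
  have g0 : VPB_Sp K N b (fun _ => (ρ : ℂ)) v := VPB_Sp_const _ hN0 (by
    rw [Complex.norm_real, Real.norm_eq_abs]
    exact hρ)
  have g := hC.add N _ _ _ _ v hN (by positivity) (by positivity)
    (hC.add N _ _ _ _ v hN hb (by positivity) g0 g2) g1
  have g' := VPB_Sp_mono (N' := N) (m' := 4 * C * b) g hN0 (by positivity) le_rfl (by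
    have a1 : C * m * m ≤ C * 1 * 1 := by
      apply mul_le_mul (mul_le_mul_of_nonneg_left hm1 hC0) hm1 hm (by positivity)
    have a2 : b + b * (C * m * m) + b * m = b * (1 + C * m * m + m) := by ring
    rw [a2, mul_comm (4 * C) b]
    exact mul_le_mul_of_nonneg_left (by linarith) hb)
  refine VPB_Sp_congr g' (Eventually.of_forall fun w => ?_)
  change XV ρ κ w = (ρ : ℂ) + -((ρ : ℂ) / 4) * (w * w) + (κ : ℂ) * Complex.I * w
  unfold XV
  ring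

theorem NPE_Sp_G2 (hC : VPB_Cal K C) {N m R CX ρ κ : ℝ} {X : ℂ → ℂ} {v : ℂ} (M : Matrix (Fin 2) (Fin 2) ℂ)
    (hN : 1 ≤ N) (hNR : N * N = R) (hv : ‖v‖ ≤ m) (hmN : 1 ≤ m * N) (hm1 : m ≤ 1) (hR : 2 ≤ R) (hCX : 0 ≤ CX)
    (hρ : |ρ| ≤ R) (hκ : |κ| ≤ R) (hX : ContDiff ℝ ∞ X) (hXb : ∀ k ≤ K + 2, ‖iteratedFDeriv ℝ k X v‖ ≤ CX * N ^ k)
    (hM : ∀ i j, ‖M i j‖ ≤ R) :
    VPB_Sp K N (29 * C ^ 5 * CX * R ^ 2) (VPE_G2 R X ρ κ M) v := by
  have hN0 : 0 ≤ N := zero_le_one.trans hN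
  have hm : 0 ≤ m := (norm_nonneg v).trans hv
  have hC1 := hC.one
  have hC0 : 0 ≤ C := zero_le_one.trans hC1
  have hR0 : 0 ≤ R := by linarith
  have hNR' : N ≤ R := by nlinarith
  have hCXR : 0 ≤ CX * R := mul_nonneg hCX hR0
  have hd : ∀ e : ℂ, ‖e‖ ≤ 1 → VPB_Sp K N (CX * R) (fun w => fderiv ℝ X w e) v := by
    intro e he
    have h1 : VPB_Sp K N (CX * N) (fun w => fderiv ℝ X w e) v := by
      apply VPB_Sp_fderiv hX he
      intro k hk
      refine (hXb (k + 1) (by omega)).trans (le_of_eq ?_)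
      rw [pow_succ]
      ring
    exact VPB_Sp_mono h1 hN0 (mul_nonneg hCX hN0) le_rfl (mul_le_mul_of_nonneg_left hNR' hCX)
  have h1 := hd 1 (by simp)
  have hI := hd Complex.I (by simp)
  -- the transport term
  have hXV := NPE_Sp_XV hC hN hv hmN hm1 hρ hκ
  have hdir := VPE_Sp_dir hC hN hCXR (by positivity) h1 hI hXV
  have g1 := VPB_Sp_cmul hdir (-Complex.I) hN0 (m' := 2 * (C * (4 * C * R) * (CX * R))) (by simp)
  -- the second derivatives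
  have hdd : ∀ e : ℂ, ‖e‖ ≤ 1 → VPB_Sp K N (CX * R) (fun w => fderiv ℝ (fderiv ℝ X) w e e) v := by
    intro e he
    apply VPE_Sp_fd2 hX he
    intro k hk
    refine (hXb (k + 2) (by omega)).trans (le_of_eq ?_)
    rw [pow_add, ← hNR]
    ring
  have l1 := hC.add N _ _ _ _ v hN hCXR hCXR (hdd 1 (by simp)) (hdd Complex.I (by simp))
  have l2 := VPB_Sp_cmul l1 ((1 : ℂ) / (2 * (R : ℂ))) hN0 (m' := CX) (by
    rw [norm_div, norm_mul, Complex.norm_real, Real.norm_of_nonneg hR0, norm_one]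
    have h4 : ‖(2 : ℂ)‖ = 2 := by norm_num
    rw [h4]
    apply le_of_eq
    have : R ≠ 0 := by linarith
    field_simp
    ring)
  -- the gradient of the phase
  have hre := VPB_Sp_re (K := K) hv hN0 hmN
  have him := VPB_Sp_im (K := K) hv hN0 hmN
  have hRm : R * m ≤ R := by nlinarith
  have q0 : VPB_Sp K N R (fun _ => (ρ : ℂ)) v := VPB_Sp_const _ hN0 (by
    rw [Complex.norm_real, Real.norm_eq_abs]
    exact hρ)
  have c : ∀ i j, ∀ {f : ℂ → ℂ}, VPB_Sp K N m f v → VPB_Sp K N R (fun w => M i j * f w) v := fun i j f hf =>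
    VPB_Sp_cmul hf (M i j) hN0 ((mul_le_mul_of_nonneg_right (hM i j) hm).trans hRm)
  have q1 := hC.add N _ _ _ _ v hN (by positivity) hR0 (hC.add N _ _ _ _ v hN hR0 hR0 q0 (c 0 0 hre)) (c 0 1 him)
  have q2 := hC.add N _ _ _ _ v hN hR0 hR0 (c 1 0 hre) (c 1 1 him)
  have p1 := hC.mul N _ _ _ _ v hN hCXR (by positivity) h1 q1
  have p2 := hC.mul N _ _ _ _ v hN hCXR (by positivity) hI q2
  have p3 := hC.add N _ _ _ _ v hN (by positivity) (by positivity) p1 p2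
  have p4 := VPB_Sp_cmul p3 Complex.I hN0 (m' := C * (CX * R) * (R + R + R) + C * (CX * R) * (R + R)) (by simp)
  have p5 := hC.add N _ _ _ _ v hN hCX (by positivity) l2 p4
  have p6 := hC.mul N _ _ _ _ v hN (by positivity) (by positivity) (VPE_Sp_w hC hN hv hmN hm1) p5
  have p7 := hC.add N _ _ _ _ v hN (by positivity) (by positivity) g1 p6
  refine VPB_Sp_congr (VPB_Sp_mono p7 hN0 (by positivity) le_rfl ?_) (Eventually.of_forall fun w => ?_)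
  · have hR1 : 1 ≤ R := by linarith
    have hRR : R ≤ R ^ 2 := by nlinarith
    have hR2 : 1 ≤ R ^ 2 := by nlinarith
    have hC5 : C ^ 2 ≤ C ^ 5 := pow_le_pow_right₀ hC1 (by norm_num)
    have a1 : 2 * (C * (4 * C * R) * (CX * R)) ≤ 8 * C ^ 5 * CX * R ^ 2 := by
      calc 2 * (C * (4 * C * R) * (CX * R)) = 8 * (CX * (C ^ 2 * R ^ 2)) := by ring
        _ ≤ 8 * (CX * (C ^ 5 * R ^ 2)) := by
          apply mul_le_mul_of_nonneg_left _ (by norm_num)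
          apply mul_le_mul_of_nonneg_left _ hCX
          exact mul_le_mul_of_nonneg_right hC5 (by positivity)
        _ = 8 * C ^ 5 * CX * R ^ 2 := by ring
    have a2 : CX + (C * (CX * R) * (R + R + R) + C * (CX * R) * (R + R)) ≤ 7 * C * CX * R ^ 2 := by
      have b1 : CX ≤ C * CX * R ^ 2 := by
        have : 1 ≤ C * R ^ 2 := by nlinarith
        nlinarith
      have b2 : C * (CX * R) * (R + R + R) ≤ C * (CX * R) * (3 * R) :=
        mul_le_mul_of_nonneg_left (by linarith) (by positivity)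
      have b3 : C * (CX * R) * (R + R) ≤ C * (CX * R) * (3 * R) :=
        mul_le_mul_of_nonneg_left (by linarith) (by positivity)
      have b4 : C * (CX * R) * (3 * R) = 3 * (C * CX * R ^ 2) := by ring
      have b5 : 0 ≤ C * CX * R ^ 2 := by positivity
      linarith
    have a3 : C * (3 * C ^ 3) * (CX + (C * (CX * R) * (R + R + R) + C * (CX * R) * (R + R))) ≤
        21 * C ^ 5 * CX * R ^ 2 := by
      calc C * (3 * C ^ 3) * (CX + (C * (CX * R) * (R + R + R) + C * (CX * R) * (R + R)))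
          ≤ C * (3 * C ^ 3) * (7 * C * CX * R ^ 2) := mul_le_mul_of_nonneg_left a2 (by positivity)
        _ = 21 * C ^ 5 * CX * R ^ 2 := by ring
    linarith
  · unfold VPE_G2 lp2
    ring

theorem NPE_proof (hNRM : NRM_stmt) (hNR3 : NR3_stmt) (hNYB : NYB_stmt) (hNUB : NUB_stmt) (hVSY : VQ.VSY_stmt)
    (hVCT : VQ.VCT_stmt) (hVBR : VQ.VBR_stmt) : NPE_stmt := by
  intro k hk
  obtain ⟨CY, hCY1, hY⟩ := hNYB k hk
  obtain ⟨C3, hC31, h3⟩ := hNR3 k hk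
  obtain ⟨CU, hCU1, hU⟩ := hNUB k hk
  refine ⟨CY + C3 + 16, by linarith, ?_⟩
  intro ch K e ζ ζ1 B hch hRg
  obtain ⟨he0, hζ, hζζ, hCe, hCζ⟩ := hRg
  have hζ1 : 0 < ζ1 := lt_of_lt_of_le hζ hζζ
  have hζ16 : 16 * ζ1 ≤ 1 := by nlinarith
  have hYe : CY * e ≤ ζ1 := by nlinarith
  have h3e : C3 * e ≤ ζ1 := by nlinarith
  obtain ⟨CK, hCK⟩ := VPB_cal hVSY K
  obtain ⟨CX, hCX1, hX⟩ := hVCT ch (K + 2) hch
  obtain ⟨RB, hRB1, hBR⟩ := hVBR ch ζ hch hζ (by linarith)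
  obtain ⟨C', hC'1, hr3⟩ := h3 K B
  have hCK1 := hCK.one
  have hC0 : 0 ≤ CK := by linarith
  have hX0 : 0 ≤ CX := by linarith
  have hY0 : 0 ≤ CY := by linarith
  have hC'0 : 0 ≤ C' := by linarith
  obtain ⟨R0, hR01, hR0⟩ := VPB_R0 (((((eventually_ge_atTop RB).and (eventually_ge_atTop CU)).and (eventually_ge_atTop 2)).and
    ((VPB_ev (2 * CY * CK) ζ1 hζ1).and (VPB_ev CY ζ1 hζ1))).and
    (((VPB_ev (CK * CX * (C' + CY * (2 * CK ^ 3))) ζ1 hζ1).and (VPB_ev (CK ^ 2 + 1) ζ1 hζ1)).and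
      (VPE_ev (CK * CK * (29 * CK ^ 5 * CX)) ζ1 (1 / (8 * CY)) hζ1 (by positivity))))
  refine ⟨R0, hR01, ?_⟩
  intro R Γ D p t hR hD hE ht
  obtain ⟨⟨⟨⟨hRB, hRCU⟩, hR2⟩, hn1, hnY⟩, ⟨hn2, hn3⟩, hn4⟩ := hR0 R hR
  have hR1 : 1 ≤ R := hR01.trans hR
  have hRp : 0 < R := lt_of_lt_of_le one_pos hR1
  obtain ⟨-, -, -, -, -, -, -, hcl, hcu⟩ := hBR R hRB
  have hcr0 : 0 ≤ cR ch ζ R := Real.sqrt_nonneg _
  have hpow : ∀ a : ℝ, 0 ≤ R ^ a := fun a => (Real.rpow_pos_of_pos hRp a).le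
  obtain ⟨hXs, hXsup, hXb, hXone, -⟩ := hX ζ1 R hζ1.le (by linarith) hR1
  obtain ⟨hM, ha, hIm, -⟩ := hY Γ B D hD p.2 t p.1 hE
  obtain ⟨-, -, hrho, -⟩ := hU Γ B D.U hD.pot
  obtain ⟨hrho1, hrho2, -, hkap, -⟩ := hrho p.2 (D.fl p.2 t p.1) hE
  obtain ⟨hEr, -⟩ := hNRM ch ζ ζ1 R k Γ B D p t hch hζ1 (by linarith) hR2 hD hE
  have hexp : Real.exp (CY * |t|) ≤ R ^ ζ1 := VPB_exp_le hR1 hY0 hYe ht
  have hexp3 : Real.exp (C3 * |t|) ≤ R ^ ζ1 := VPB_exp_le hR1 (by linarith) h3e ht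
  have hM' : ∀ i j, ‖D.M p.2 t p.1 i j‖ ≤ CY * R ^ ζ1 := fun i j =>
    (hM i j).2.2.2.trans (mul_le_mul_of_nonneg_left hexp hY0)
  have hMR : ∀ i j, ‖D.M p.2 t p.1 i j‖ ≤ R := by
    intro i j
    refine (hM' i j).trans ?_
    calc CY * R ^ ζ1 ≤ R ^ ζ1 * R ^ ζ1 := mul_le_mul_of_nonneg_right hnY (hpow _)
      _ = R ^ (ζ1 + ζ1) := (Real.rpow_add hRp _ _).symm
      _ ≤ R ^ (1 : ℝ) := Real.rpow_le_rpow_of_exponent_le hR1 (by linarith)
      _ = R := Real.rpow_one R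
  have ha' : ‖D.a p.2 t p.1‖ ≤ CY * R ^ ζ1 := ha.trans (mul_le_mul_of_nonneg_left hexp hY0)
  have hImq : ∀ v : ℂ, 0 ≤ (qf (D.M p.2 t p.1) v).im := by
    intro v
    have h1 := hIm v
    have h2 : 0 < CY * Real.exp (CY * |t|) := by positivity
    by_contra h
    push Not at h
    nlinarith [sq_nonneg ‖v‖, mul_neg_of_pos_of_neg h2 h]
  obtain ⟨hm1, hm2⟩ := VPB_num2 (R := R) (ζ1 := ζ1) hR1 hζ1.le
  have hN1 : 1 ≤ R ^ (1 / 2 : ℝ) := Real.one_le_rpow hR1 (by norm_num)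
  have hNR : R ^ (1 / 2 : ℝ) * R ^ (1 / 2 : ℝ) = R := by
    rw [← Real.rpow_add hRp]
    norm_num
  have hL1 : 1 ≤ R ^ (4 * ζ1) := Real.one_le_rpow hR1 (by linarith)
  have hmle : R ^ (-(1 / 2) + ζ1) ≤ 1 := Real.rpow_le_one_of_one_le_of_nonpos hR1 (by linarith)
  have hNN : 1 ≤ R ^ (1 / 2 + 4 * ζ1) := Real.one_le_rpow hR1 (by linarith)
  set X : ℂ → ℂ := fun w => ((ch (R ^ (1 - 2 * ζ1) * ‖w‖ ^ 2) : ℝ) : ℂ) with hXdef
  set ρ : ℝ := rho D.U p.2 (D.fl p.2 t p.1) with hρdef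
  set κ : ℝ := kap D.U p.2 (D.fl p.2 t p.1) with hκdef
  set M : Matrix (Fin 2) (Fin 2) ℂ := D.M p.2 t p.1 with hMdef
  set c0 : ℂ := (cR ch ζ R : ℂ) * D.a p.2 t p.1 * Complex.exp (((R * D.S p.2 t p.1 : ℝ) : ℂ) * Complex.I) with hc0
  have hCU0 : 0 < 1 / CU := by positivity
  have hρ2 : |ρ| ≤ R := by
    rw [abs_le]
    constructor <;> linarith
  have hκ1 : |κ| ≤ R := by linarith
  have hc0n : ‖c0‖ ≤ R ^ (3 / 2 + 2 * ζ1) := by
    refine (VPB_const hcr0 hcu ha').trans ?_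
    calc R ^ (3 / 2 : ℝ) * (CY * R ^ ζ1) ≤ R ^ (3 / 2 : ℝ) * (R ^ ζ1 * R ^ ζ1) :=
          mul_le_mul_of_nonneg_left (mul_le_mul_of_nonneg_right hnY (hpow _)) (hpow _)
      _ = R ^ (3 / 2 + 2 * ζ1) := by
        rw [← Real.rpow_add hRp, ← Real.rpow_add hRp]
        congr 1
        ring
  -- the main estimate
  have hin : ∀ v : ℂ, ‖v‖ ≤ R ^ (-(1 / 2) + ζ1) → VPB_Sp K (R ^ (1 / 2 + 4 * ζ1)) (R ^ (1 + 8 * ζ1))
      (fun v => c0 * (Complex.exp (VPB_psi R M v) * VPE_G1 R X (r3 D t p) M v +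
        Complex.exp (VPB_psi R M v) * VPE_G2 R X ρ κ M v)) v := by
    intro v hv
    have hv1 : ‖v‖ ≤ 1 := hv.trans hmle
    have hg := VPB_Sp_gauss hCK (N := R ^ (1 / 2 : ℝ)) (m := R ^ (-(1 / 2) + ζ1)) (b := CY * R ^ ζ1) (R := R)
      (L := R ^ (4 * ζ1)) (v := v) M hN1 hv hm1 hM' hRp.le hL1 (VPB_num hR1 hn1)
    rw [hm2] at hg
    have hexp1 : Real.exp (-(R / 2 * (qf M v).im)) ≤ 1 := by
      rw [Real.exp_le_one_iff]
      have := mul_nonneg (by linarith : (0 : ℝ) ≤ R / 2) (hImq v)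
      linarith
    have hg' := VPB_Sp_mono (N' := R ^ (1 / 2 + 4 * ζ1)) (m' := CK) hg (hpow _) (by positivity) le_rfl (by
      calc CK * Real.exp (-(R / 2 * (qf M v).im)) ≤ CK * 1 := mul_le_mul_of_nonneg_left hexp1 hC0
        _ = CK := mul_one _)
    have hx : VPB_Sp K (R ^ (1 / 2 : ℝ)) CX X v := ⟨hXs.contDiffAt, fun j hk => hXb j (by omega) v⟩
    -- the remainder
    obtain ⟨hr1, hr2, hr4⟩ := hr3 Γ D p t hD hE v hv1
    have hBr : C' * Real.exp (C3 * |t|) ≤ C' * R ^ ζ1 := mul_le_mul_of_nonneg_left hexp3 hC'0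
    have hr := VPE_Sp_r3 (K := K) (N := R ^ (1 / 2 : ℝ)) (m := R ^ (-(1 / 2) + ζ1)) (B := C' * R ^ ζ1) (v := v) hN1 hv hm1
      (by positivity) hr1
      (fun j hk => (hr2 j hk).trans (mul_le_mul_of_nonneg_right hBr (pow_nonneg (norm_nonneg _) _)))
      (fun j hk => (hr4 j hk).trans hBr)
    have hG1 := VPE_Sp_G1 hCK M hN1 hv hm1 hmle hRp.le hX0 (by positivity) hx hr hM'
    have hG1' := VPB_Sp_mono (N' := R ^ (1 / 2 + 4 * ζ1)) (m' := R ^ (-(1 / 2) + 5 * ζ1)) hG1 (hpow _) (by positivity)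
      (Real.rpow_le_rpow_of_exponent_le hR1 (by linarith)) (VPE_num hR1 hζ1.le hC0 hX0 hY0 hn2)
    have hP1 := hCK.mul _ _ _ _ _ v hNN hC0 (hpow _) hg' hG1'
    -- the second part
    have hP2 : VPB_Sp K (R ^ (1 / 2 + 4 * ζ1)) (R ^ (-(1 / 2) + 5 * ζ1))
        (fun v => Complex.exp (VPB_psi R M v) * VPE_G2 R X ρ κ M v) v := by
      rcases lt_or_ge ‖v‖ (R ^ (-(1 / 2) + ζ1) / 2) with hlt | hge
      · have h1 : X =ᶠ[𝓝 v] fun _ => 1 := by
          have hopen : {w : ℂ | ‖w‖ < R ^ (-(1 / 2) + ζ1) / 2} ∈ 𝓝 v :=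
            (isOpen_lt continuous_norm continuous_const).mem_nhds hlt
          filter_upwards [hopen] with w hw
          have hw' : ‖w‖ < R ^ (-(1 / 2) + ζ1) / 2 := hw
          have h2 := hXone w hw'.le
          change ((ch (R ^ (1 - 2 * ζ1) * ‖w‖ ^ 2) : ℝ) : ℂ) = 1
          rw [h2]
          simp
        have h2 := VPE_G2_zero R X ρ κ M v 1 h1
        refine VPB_Sp_congr (VPB_Sp_zero (hpow _) (hpow _)) ?_
        filter_upwards [h2] with w hw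
        rw [hw]
        simp
      · have hG2 := NPE_Sp_G2 hCK M (κ := κ) hN1 hNR hv hm1 hmle hR2 hX0 hρ2 hκ1 hXs (fun j hk => hXb j hk v) hMR
        have hG2' := VPB_Sp_mono (N' := R ^ (1 / 2 + 4 * ζ1)) (m' := 29 * CK ^ 5 * CX * R ^ 2) hG2 (hpow _)
          (by positivity) (Real.rpow_le_rpow_of_exponent_le hR1 (by linarith)) le_rfl
        have h5 := hCK.mul _ _ _ _ _ v hNN (by positivity) (by positivity) hg hG2'
        refine VPB_Sp_mono h5 (hpow _) (by positivity) le_rfl ?_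
        have h6 : 1 / (8 * CY) * R ^ ζ1 ≤ R / 2 * (qf M v).im :=
          VPE_im hR1 (by linarith) hexp (Real.exp_pos _) hge (hIm v)
        have h7 : Real.exp (-(R / 2 * (qf M v).im)) ≤ Real.exp (-(1 / (8 * CY) * R ^ ζ1)) :=
          Real.exp_le_exp.2 (by linarith)
        have h8 : (R : ℝ) ^ (3 : ℝ) = R ^ 2 * R := by
          have : (R : ℝ) ^ (3 : ℝ) = R ^ (3 : ℕ) := by
            rw [← Real.rpow_natCast]
            norm_num
          rw [this]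
          ring
        rw [h8] at hn4
        have h9 : CK * (CK * Real.exp (-(R / 2 * (qf M v).im))) * (29 * CK ^ 5 * CX * R ^ 2) * R ≤ 1 := by
          calc CK * (CK * Real.exp (-(R / 2 * (qf M v).im))) * (29 * CK ^ 5 * CX * R ^ 2) * R
              = (CK * CK * (29 * CK ^ 5 * CX) * (R ^ 2 * R)) * Real.exp (-(R / 2 * (qf M v).im)) := by ring
            _ ≤ (CK * CK * (29 * CK ^ 5 * CX) * (R ^ 2 * R)) * Real.exp (-(1 / (8 * CY) * R ^ ζ1)) :=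
              mul_le_mul_of_nonneg_left h7 (by positivity)
            _ ≤ 1 := hn4
        have h10 : CK * (CK * Real.exp (-(R / 2 * (qf M v).im))) * (29 * CK ^ 5 * CX * R ^ 2) ≤ R⁻¹ := by
          rw [← one_div, le_div_iff₀ hRp]
          exact h9
        refine h10.trans ?_
        rw [← Real.rpow_neg_one]
        exact Real.rpow_le_rpow_of_exponent_le hR1 (by linarith)
    have hP3 := hCK.add _ _ _ _ _ v hNN (by positivity) (hpow _) hP1 hP2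
    refine VPB_Sp_cmul hP3 c0 (hpow _) ?_
    have hq : CK * CK * R ^ (-(1 / 2) + 5 * ζ1) + R ^ (-(1 / 2) + 5 * ζ1) ≤ R ^ (-(1 / 2) + 6 * ζ1) := by
      calc CK * CK * R ^ (-(1 / 2) + 5 * ζ1) + R ^ (-(1 / 2) + 5 * ζ1) = (CK ^ 2 + 1) * R ^ (-(1 / 2) + 5 * ζ1) := by ring
        _ ≤ R ^ ζ1 * R ^ (-(1 / 2) + 5 * ζ1) := mul_le_mul_of_nonneg_right hn3 (hpow _)
        _ = R ^ (-(1 / 2) + 6 * ζ1) := by
          rw [← Real.rpow_add hRp]
          congr 1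
          ring
    calc ‖c0‖ * (CK * CK * R ^ (-(1 / 2) + 5 * ζ1) + R ^ (-(1 / 2) + 5 * ζ1))
        ≤ R ^ (3 / 2 + 2 * ζ1) * R ^ (-(1 / 2) + 6 * ζ1) := mul_le_mul hc0n hq (by positivity) (hpow _)
      _ = R ^ (1 + 8 * ζ1) := by
        rw [← Real.rpow_add hRp]
        congr 1
        ring
  have hout : ∀ v : ℂ, R ^ (-(1 / 2) + ζ1) < ‖v‖ →
      (fun v => c0 * (Complex.exp (VPB_psi R M v) * VPE_G1 R X (r3 D t p) M v +
        Complex.exp (VPB_psi R M v) * VPE_G2 R X ρ κ M v)) =ᶠ[𝓝 v] fun _ => 0 := by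
    intro v hv
    have h1 : X =ᶠ[𝓝 v] fun _ => 0 := VPB_X_out hch hR1 v hv
    have h2 := VPE_G2_zero R X ρ κ M v 0 h1
    filter_upwards [h1, h2] with w hw1 hw2
    rw [hw2]
    unfold VPE_G1
    rw [hw1]
    simp
  obtain ⟨hA1, hA2, hA3⟩ := VPB_glob (K := K) (N := R ^ (1 / 2 + (CY + C3 + 16) * ζ1))
    (m := R ^ (1 + (CY + C3 + 16) * ζ1))
    (hpow _) (hpow _) (Real.rpow_le_rpow_of_exponent_le hR1 (by nlinarith))
    (Real.rpow_le_rpow_of_exponent_le hR1 (by nlinarith)) hout hin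
  refine ⟨_, hA1, ?_, hA3, ?_⟩
  · intro v hv
    refine (hA2 v hv).trans (Real.rpow_le_rpow_of_exponent_le hR1 ?_)
    nlinarith
  · intro v
    rw [hEr v]
    have e0 : Complex.exp (Complex.I * (R : ℂ) * (((D.S p.2 t p.1 + ρ * v.re : ℝ) : ℂ) + qf M v / 2)) =
        Complex.exp (((R * ρ * v.re : ℝ) : ℂ) * Complex.I) *
        (Complex.exp (((R * D.S p.2 t p.1 : ℝ) : ℂ) * Complex.I) * Complex.exp (VPB_psi R M v)) := by
      unfold VPB_psi
      rw [← Complex.exp_add, ← Complex.exp_add]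
      congr 1
      push_cast
      ring
    rw [e0, hc0]
    unfold VPE_G1 VPE_G2
    ring

end

end Pool.Agent.VN
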